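import Mathlib
import Pool.Agent.V11185.TempCol

/-!
# MP_4e4764_co: temporal 4-colouring of bipartite temporal graphs with grow pace 1
-/

namespace Pool.Agent.Results.MP_4e4764_co.FourColours

open Pool.Agent.V11185.TC

variable {V : Type*}

/-- Grow pace 1: between consecutive snapshots at most one edge is added and at most one edge is
removed. -/
def GrowPaceOne {T : ℕ} (G : Fin T → SimpleGraph V) : Prop :=
  ∀ i j : Fin T, (j : ℕ) = (i : ℕ) + 1 →
    ((G j).edgeSet \ (G i).edgeSet).ncard ≤ 1 ∧ ((G i).edgeSet \ (G j).edgeSet).ncard ≤ 1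

/-- A temporal `k`-colouring: `c i` is a proper colouring of the snapshot `G i`, and for
consecutive snapshots `G i`, `G j` (`j = i + 1`), every edge `xy` of `G i ∪ G j` and all
`a, b ∈ {i, j}` one has `c a x ≠ c b y`. -/
structure IsTemporalColouring {T k : ℕ} (G : Fin T → SimpleGraph V) (c : Fin T → V → Fin k) :
    Prop where
  proper : ∀ i x y, (G i).Adj x y → c i x ≠ c i y
  compatible : ∀ i j : Fin T, (j : ℕ) = (i : ℕ) + 1 → ∀ x y, (G i ⊔ G j).Adj x y →
    ∀ a b : Fin T, (a = i ∨ a = j) → (b = i ∨ b = j) → c a x ≠ c b y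

/-- `G` has a temporal `k`-colouring. -/
def TemporallyColourable {T : ℕ} (G : Fin T → SimpleGraph V) (k : ℕ) : Prop :=
  ∃ c : Fin T → V → Fin k, IsTemporalColouring G c

/-- The temporal chromatic number: the least `k` such that there is a temporal `k`-colouring. -/
noncomputable def temporalChromaticNumber {T : ℕ} (G : Fin T → SimpleGraph V) : ℕ :=
  sInf {k | TemporallyColourable G k}

theorem oneNew_of_ncard [Finite V] {A B : SimpleGraph V}
    (h : (B.edgeSet \ A.edgeSet).ncard ≤ 1) : OneNew A B := by
  intro x y x' y' h1 h2 h3 h4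
  rw [Set.ncard_le_one (Set.toFinite _)] at h
  have e := h s(x, y) ⟨h1, h2⟩ s(x', y') ⟨h3, h4⟩
  rw [Sym2.eq_iff] at e
  exact e

theorem oneNew_refl (A : SimpleGraph V) : OneNew A A := fun _ _ _ _ h1 h2 => absurd h1 h2

/-- Identification of the colours with `Fin 4`. -/
def toFin (c : Col) : Fin 4 :=
  match c with
  | (false, false) => 0
  | (false, true) => 1
  | (true, false) => 2
  | (true, true) => 3

theorem toFin_inj : ∀ c d : Col, toFin c = toFin d → c = d := by decide

/-- **Answer to Q1 (yes).**  Every temporal graph `(G_1, …, G_T)`, `T ≥ 1`, with grow pace 1 on a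
finite vertex set, all of whose snapshots are bipartite, admits a temporal 4-colouring; so its
temporal chromatic number is at most 4. -/
theorem result : ∀ (V : Type) [Finite V] (T : ℕ), 1 ≤ T → ∀ G : Fin T → SimpleGraph V,
    GrowPaceOne G → (∀ i, (G i).Colorable 2) →
      TemporallyColourable G 4 ∧ temporalChromaticNumber G ≤ 4 := by
  intro V _ T hT G hG hb
  have main : TemporallyColourable G 4 := by
    -- extend the sequence by its last term
    set G' : ℕ → SimpleGraph V := fun i => G ⟨min i (T - 1), by omega⟩ with hG'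
    have hGi : ∀ i : Fin T, G' i = G i := by
      intro i
      simp only [hG']
      congr 1
      apply Fin.ext
      have := i.2
      simp only
      omega
    have hb' : ∀ j, ∃ φ, Pr (G' j) φ := by
      intro j
      obtain ⟨C⟩ := hb ⟨min j (T - 1), by omega⟩
      refine ⟨fun x => decide (C x = 0), ?_⟩
      intro x y hxy hh
      have h1 := C.valid hxy
      apply h1
      simp only [decide_eq_decide] at hh
      have hx := (C x).2
      have hy := (C y).2
      apply Fin.ext
      rw [Fin.ext_iff, Fin.ext_iff] at hh
      simp only [Fin.val_zero] at hh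
      omega
    have hstep : ∀ j, OneNew (G' j) (G' (j + 1)) ∧ OneNew (G' (j + 1)) (G' j) := by
      intro j
      by_cases hj : j + 1 < T
      · have h := hG ⟨j, by omega⟩ ⟨j + 1, hj⟩ rfl
        have e1 := hGi ⟨j, by omega⟩
        have e2 := hGi ⟨j + 1, hj⟩
        simp only at e1 e2
        rw [e1, e2]
        exact ⟨oneNew_of_ncard h.1, oneNew_of_ncard h.2⟩
      · have e : G' j = G' (j + 1) := by
          simp only [hG']
          congr 1
          apply Fin.ext
          simp only
          omega
        rw [e]
        exact ⟨oneNew_refl _, oneNew_refl _⟩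
    obtain ⟨c, hc⟩ := exists_col G' hb' (fun j => (hstep j).1) (fun j => (hstep j).2) (T + 1)
    refine ⟨fun i x => toFin (c i x), ?_, ?_⟩
    · intro i x y hxy h
      rw [← hGi] at hxy
      exact hc i (by omega) x y (Or.inl hxy) i i (Or.inl rfl) (Or.inl rfl) (toFin_inj _ _ h)
    · intro i j hij x y hxy a b ha hb2 h
      rw [← hGi, ← hGi, hij] at hxy
      refine hc i (by omega) x y hxy a b ?_ ?_ (toFin_inj _ _ h)
      · rcases ha with rfl | rfl
        · exact Or.inl rfl
        · exact Or.inr hij
      · rcases hb2 with rfl | rfl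
        · exact Or.inl rfl
        · exact Or.inr hij
  exact ⟨main, Nat.sInf_le main⟩

end Pool.Agent.Results.MP_4e4764_co.FourColours
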